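import Pool.Agent.Run7.h228.TN_count
import Pool.Agent.Run7.h968.TN.Defs5

/-!
Piece `count5` of the project TN of helper968.
-/

set_option autoImplicit false

namespace Pool.Agent.Run7.h651.TN

open Pool.Agent.Run7.h968.TN Finset Classical

theorem t_count5 : P_count5 := by
  intro K _ N _ _ _ I _ F i A₁ A₂ V hV hx
  set S : Fin 2 → Finset (K ⧸ N) := fun l =>
    (Finset.univ : Finset (K ⧸ N)).filter (fun y => (y, i l) ∈ F) with hS
  have hmem : ∀ l y, y ∈ S l ↔ (y, i l) ∈ F := by
    intro l y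
    simp [hS]
  have hsum := Finset.sum_le_sum (s := (Finset.univ : Finset (K ⧸ N)))
    fun y _ => hx (Quotient.out y)
  simp_rw [← hmem] at hsum
  rw [Finset.sum_add_distrib, Finset.sum_add_distrib, Run7.h228.TN.sum_card N,
    Run7.h228.TN.sum_card N, Finset.sum_const, Finset.sum_const, Finset.card_univ, smul_eq_mul,
    smul_eq_mul] at hsum
  have hpos : 0 < Fintype.card (K ⧸ N) := Fintype.card_pos
  show (S 0).card + (S 1).card ≤ _
  by_contra hcon
  push Not at hcon
  have h5 : A₂.card * Fintype.card (K ⧸ N) ≤ A₂.card * ((S 0).card + (S 1).card) :=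
    Nat.mul_le_mul_left _ hcon.le
  have h6 : (V.card + 1) * Fintype.card (K ⧸ N) ≤ (A₁.card + A₂.card) * Fintype.card (K ⧸ N) :=
    Nat.mul_le_mul_right _ hV
  nlinarith

end Pool.Agent.Run7.h651.TN
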