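import Pool.Agent.W402.CS.Lower
import Pool.Agent.Run7.h968.TN.Defs5

/-!
Piece `low6` of the project TN of helper968.
-/

set_option autoImplicit false

namespace Pool.Agent.Run7.h651.TN

open Pool.Agent.Run7.h968.TN

theorem t_low6 : P_low6 := by
  classical
  intro G _ hT ⟨k, P, t, S, hk, hP, h1, h2⟩
  have hdisj : ∀ i j : Fin k, i ≠ j → Disjoint (P i) (P j) := by
    intro i j hij
    rw [Set.disjoint_left]
    intro x hi hj
    exact hij ((hP x).unique hi hj)
  have key := Pool.Agent.W402.CS.lower G hT S.card Sᶜ.card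
    ⟨fun i => P (S.equivFin.symm i), fun i => P (Sᶜ.equivFin.symm i),
      fun i => t (S.equivFin.symm i), fun i => t (Sᶜ.equivFin.symm i),
      fun i j hij => hdisj _ _ (fun h => hij (S.equivFin.symm.injective (Subtype.ext h))),
      fun i j hij => hdisj _ _ (fun h => hij (Sᶜ.equivFin.symm.injective (Subtype.ext h))),
      fun i j => hdisj _ _ (fun h => by
        have a := (S.equivFin.symm i).2
        have b := (Sᶜ.equivFin.symm j).2
        rw [← h, Finset.mem_compl] at b
        exact b a), ?_, ?_⟩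
  · have : S.card + Sᶜ.card = k := by simpa using Finset.card_add_card_compl S
    omega
  · rw [Set.eq_univ_iff_forall]
    intro x
    obtain ⟨i, ⟨hi, hx⟩, -⟩ := h1 x
    refine Set.mem_iUnion.2 ⟨S.equivFin ⟨i, hi⟩, (t i)⁻¹ * x, ?_, ?_⟩
    · simpa using hx
    · simp
  · rw [Set.eq_univ_iff_forall]
    intro x
    obtain ⟨i, ⟨hi, hx⟩, -⟩ := h2 x
    refine Set.mem_iUnion.2 ⟨Sᶜ.equivFin ⟨i, Finset.mem_compl.2 hi⟩, (t i)⁻¹ * x, ?_, ?_⟩
    · simpa using hx
    · simp

end Pool.Agent.Run7.h651.TN
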