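import Pool.Agent.Run7.h968.TN.Defs5

/-!
Piece `up4` of the project TN of helper968: a group containing a free group of rank two has a
complete paradoxical decomposition with four pieces.
-/

set_option autoImplicit false

namespace Pool.Agent.Run7.h651.TN

open Pool.Agent.Run7.h968.TN

/-- the free group of rank two -/
abbrev F2 : Type := FreeGroup (Fin 2)

/-- first letter of the reduced word -/
def hd (w : F2) : Option (Fin 2 × Bool) := w.toWord.head?

/-- a letter as an element -/
def lt (i : Fin 2) (b : Bool) : F2 := FreeGroup.mk [(i, b)]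

theorem lt_inv (i : Fin 2) (b : Bool) : lt i b * lt i (!b) = 1 := by
  cases b <;> simp [lt, FreeGroup.mul_mk, FreeGroup.one_eq_mk, ← FreeGroup.toWord_inj,
    FreeGroup.toWord_mk, FreeGroup.reduce]

theorem toWord_lt_mul (w : F2) (i : Fin 2) (b : Bool) :
    (lt i b * w).toWord = FreeGroup.reduce ((i, b) :: w.toWord) := by
  have e : lt i b * w = FreeGroup.mk ((i, b) :: w.toWord) := by
    conv_lhs => rw [← FreeGroup.mk_toWord (x := w)]
    rw [lt, FreeGroup.mul_mk]
    rfl
  rw [e, FreeGroup.toWord_mk]

/-- If the reduced word of `w` does not begin with the letter `(i, !b)`, then the reduced word of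
`(i, b) * w` begins with `(i, b)`. -/
theorem hd_mul (w : F2) (i : Fin 2) (b : Bool)
    (h : hd w ≠ some (i, !b)) : hd (lt i b * w) = some (i, b) := by
  unfold hd at *
  rw [toWord_lt_mul, FreeGroup.reduce.cons, FreeGroup.reduce_toWord]
  cases hw : w.toWord with
  | nil => simp
  | cons x l =>
    rw [hw] at h
    simp only [List.head?_cons, ne_eq, Option.some.injEq] at h
    have : ¬ (i = x.1 ∧ b = !x.2) := by
      rintro ⟨h1, h2⟩
      apply h
      ext
      · simp [h1]
      · simp [h2]
    simp [this]

/-- If the reduced word of `w` begins with the letter `(i, !b)`, then the reduced word of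
`(i, b) * w` does not begin with `(i, b)`. -/
theorem hd_mul' (w : F2) (i : Fin 2) (b : Bool)
    (h : hd w = some (i, !b)) : hd (lt i b * w) ≠ some (i, b) := by
  intro h1
  have e : w = lt i (!b) * (lt i b * w) := by
    have := lt_inv i (!b)
    rw [Bool.not_not] at this
    rw [← mul_assoc, this, one_mul]
  unfold hd at *
  have hr : FreeGroup.reduce w.toWord = w.toWord := FreeGroup.reduce_toWord w
  cases hw : w.toWord with
  | nil => rw [hw] at h; simp at h
  | cons x l =>
    rw [hw] at h
    simp only [List.head?_cons, Option.some.injEq] at h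
    subst h
    have h2 : (lt i b * w).toWord = l := by
      rw [toWord_lt_mul, FreeGroup.reduce.cons, hr, hw]
      simp
    rw [h2] at h1
    cases l with
    | nil => simp at h1
    | cons y l' =>
      simp only [List.head?_cons, Option.some.injEq] at h1
      subst h1
      rw [hw] at hr
      have hr' : FreeGroup.reduce ((i, !b) :: (i, b) :: l') = [] ++ (i, !b) :: (i, !!b) :: l' := by
        simpa using hr
      exact FreeGroup.reduce.not hr'

theorem hd_mul_iff (w : F2) (i : Fin 2) (b : Bool) :
    hd (lt i b * w) = some (i, b) ↔ hd w ≠ some (i, !b) :=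
  ⟨fun h h' => hd_mul' w i b h' h, hd_mul w i b⟩

theorem hd_one : hd 1 = none := by
  simp [hd]

/-- the nonpositive powers of the second generator -/
def Z : Set F2 := {w | ∃ n : ℕ, w = lt 1 false ^ n}

theorem Z_one : (1 : F2) ∈ Z := ⟨0, by simp⟩

theorem hd_pow (n : ℕ) : hd (lt 1 false ^ (n + 1)) = some (1, false) := by
  induction n with
  | zero =>
    rw [pow_succ', pow_zero]
    apply hd_mul
    rw [hd_one]
    simp
  | succ n ih =>
    rw [pow_succ']
    apply hd_mul
    rw [ih]
    simp

theorem hd_Z {w : F2} (h : w ∈ Z) : w = 1 ∨ hd w = some (1, false) := by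
  obtain ⟨n, rfl⟩ := h
  cases n with
  | zero => left; simp
  | succ n => right; exact hd_pow n

theorem eq_one_of_hd {w : F2} (h : hd w = none) : w = 1 := by
  unfold hd at h
  rw [List.head?_eq_none_iff] at h
  exact FreeGroup.toWord_eq_nil_iff.1 h

theorem Z_mul {w : F2} (h : hd w ≠ some (1, true)) : lt 1 false * w ∈ Z ↔ w ∈ Z := by
  constructor
  · rintro ⟨n, hn⟩
    cases n with
    | zero =>
      exfalso
      apply h
      have : w = lt 1 true * 1 := by
        rw [pow_zero] at hn
        have h2 := lt_inv 1 true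
        rw [Bool.not_true] at h2
        calc w = (lt 1 true * lt 1 false) * w := by rw [h2, one_mul]
          _ = lt 1 true * (lt 1 false * w) := mul_assoc _ _ _
          _ = lt 1 true * 1 := by rw [hn]
      rw [this]
      apply hd_mul
      rw [hd_one]
      simp
    | succ n =>
      refine ⟨n, ?_⟩
      rw [pow_succ'] at hn
      exact mul_left_cancel hn
  · rintro ⟨n, rfl⟩
    exact ⟨n + 1, by rw [pow_succ']⟩

/-- the four pieces of the free group -/
def Q : Fin 4 → F2 → Prop
  | 0, w => hd w = some (0, true)
  | 1, w => hd w = some (0, false)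
  | 2, w => hd w = some (1, true) ∨ w ∈ Z
  | 3, w => hd w = some (1, false) ∧ w ∉ Z

theorem Q_unique (w : F2) : ∃! i, Q i w := by
  by_cases hz : w ∈ Z
  · refine ⟨2, Or.inr hz, ?_⟩
    intro i hi
    rcases hd_Z hz with h | h
    · subst h
      fin_cases i
      · simp [Q, hd_one] at hi
      · simp [Q, hd_one] at hi
      · rfl
      · simp [Q, hd_one] at hi
    · fin_cases i
      · simp [Q, h] at hi
      · simp [Q, h] at hi
      · rfl
      · exact absurd hz hi.2
  · cases hw : hd w with
    | none => exact absurd (eq_one_of_hd hw ▸ Z_one) hz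
    | some x =>
      obtain ⟨i, b⟩ := x
      fin_cases i <;> cases b
      · refine ⟨1, hw, ?_⟩
        intro j hj
        fin_cases j <;> simp_all [Q]
      · refine ⟨0, hw, ?_⟩
        intro j hj
        fin_cases j <;> simp_all [Q]
      · refine ⟨3, ⟨hw, hz⟩, ?_⟩
        intro j hj
        fin_cases j <;> simp_all [Q]
      · refine ⟨2, Or.inl hw, ?_⟩
        intro j hj
        fin_cases j <;> simp_all [Q]

theorem Q_one (w : F2) : Q 1 (lt 0 false * w) ↔ ¬ Q 0 w := by
  show hd _ = some (0, false) ↔ ¬ hd w = some (0, true)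
  exact hd_mul_iff w 0 false

theorem Q_three (w : F2) : Q 3 (lt 1 false * w) ↔ ¬ Q 2 w := by
  show hd _ = some (1, false) ∧ _ ↔ ¬ (hd w = some (1, true) ∨ _)
  rw [hd_mul_iff w 1 false, Bool.not_false]
  constructor
  · rintro ⟨h1, h2⟩ (h3 | h3)
    · exact h1 h3
    · exact h2 ((Z_mul h1).2 h3)
  · intro h
    push Not at h
    exact ⟨h.1, fun h3 => h.2 ((Z_mul h.1).1 h3)⟩

theorem t_up4 : P_up4 := by
  classical
  rintro G _ ⟨f, hf⟩
  -- coset representatives of the right cosets of the range
  have hrep : ∃ w : G → F2, ∀ (u : F2) (x : G), w (f u * x) = u * w x := by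
    let s : Setoid G := QuotientGroup.rightRel f.range
    have hs : ∀ x : G, ∃ u : F2, f u * (Quotient.out (Quotient.mk s x)) = x := by
      intro x
      have h1 : s (Quotient.out (Quotient.mk s x)) x := Quotient.exact (Quotient.out_eq _)
      have h2 : x * (Quotient.out (Quotient.mk s x))⁻¹ ∈ f.range := by
        have := QuotientGroup.rightRel_apply.1 h1
        exact this
      obtain ⟨u, hu⟩ := h2
      exact ⟨u, by rw [hu]; group⟩
    choose w hw using hs
    refine ⟨w, ?_⟩
    intro u x
    have h3 : (Quotient.mk s (f u * x)) = Quotient.mk s x := by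
      apply Quotient.sound
      show s (f u * x) x
      refine QuotientGroup.rightRel_apply.2 ?_
      refine ⟨u⁻¹, ?_⟩
      rw [map_inv]
      group
    apply hf
    have h4 := hw (f u * x)
    rw [h3] at h4
    have h5 := hw x
    rw [map_mul]
    apply mul_right_cancel (b := Quotient.out (Quotient.mk s x))
    rw [h4, mul_assoc, h5]
  obtain ⟨w, hw⟩ := hrep
  have hinv : ∀ i, (f (lt i true))⁻¹ = f (lt i false) := by
    intro i
    have := lt_inv i true
    rw [Bool.not_true] at this
    rw [← map_inv, inv_eq_of_mul_eq_one_right this]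
  refine ⟨4, fun i => {x | Q i (w x)}, ![1, f (lt 0 true), 1, f (lt 1 true)], {0, 1}, le_refl 4,
    fun x => Q_unique (w x), ?_, ?_⟩
  · intro x
    by_cases h : Q 0 (w x)
    · refine ⟨0, ⟨by simp, by simpa using h⟩, ?_⟩
      rintro i ⟨hi, hx⟩
      fin_cases i
      · rfl
      · exfalso
        have hx' : Q 1 (w ((f (lt 0 true))⁻¹ * x)) := hx
        rw [hinv, hw, Q_one] at hx'
        exact hx' h
      · simp at hi
      · simp at hi
    · refine ⟨1, ⟨by simp, ?_⟩, ?_⟩
      · show Q 1 (w ((f (lt 0 true))⁻¹ * x))
        rw [hinv, hw, Q_one]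
        exact h
      rintro i ⟨hi, hx⟩
      fin_cases i
      · exfalso
        have hx' : Q 0 (w ((1 : G)⁻¹ * x)) := hx
        rw [inv_one, one_mul] at hx'
        exact h hx'
      · rfl
      · simp at hi
      · simp at hi
  · intro x
    by_cases h : Q 2 (w x)
    · refine ⟨2, ⟨by simp, ?_⟩, ?_⟩
      · show Q 2 (w ((1 : G)⁻¹ * x))
        rw [inv_one, one_mul]
        exact h
      rintro i ⟨hi, hx⟩
      fin_cases i
      · simp at hi
      · simp at hi
      · rfl
      · exfalso
        have hx' : Q 3 (w ((f (lt 1 true))⁻¹ * x)) := hx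
        rw [hinv, hw, Q_three] at hx'
        exact hx' h
    · refine ⟨3, ⟨by simp, ?_⟩, ?_⟩
      · show Q 3 (w ((f (lt 1 true))⁻¹ * x))
        rw [hinv, hw, Q_three]
        exact h
      rintro i ⟨hi, hx⟩
      fin_cases i
      · simp at hi
      · simp at hi
      · exfalso
        have hx' : Q 2 (w ((1 : G)⁻¹ * x)) := hx
        rw [inv_one, one_mul] at hx'
        exact h hx'
      · rfl

end Pool.Agent.Run7.h651.TN
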